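import Mathlib
import Pool.Agent.LTHX.FinalX

open MeasureTheory

set_option autoImplicit false

namespace Pool.Agent.Results.MP_cfe56d_mp.HighDimRate

open Pool.Agent.LiebT2 in
/-- In every dimension `d > 10^36` the best constant in the kinetic Lieb-Thirring inequality is at
least `(1 - 1000 d^(-1/12))^(1/d)` times the semiclassical constant. The definitions of the constants
are those of the problem. -/
theorem result (d : ℕ) (hd : 10 ^ 36 < d) :
    (1 - 1000 / (d : ℝ) ^ (1 / 12 : ℝ)) ^ (1 / (d : ℝ)) *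
        ((d : ℝ) / ((d : ℝ) + 2) * (2 * Real.pi) ^ 2
            / ((MeasureTheory.volume (Metric.ball (0 : EuclideanSpace ℝ (Fin d)) 1)).toReal)
                ^ (2 / (d : ℝ)))
      ≤ sInf {K : ℝ | ∃ N : ℕ, ∃ u : Fin N → EuclideanSpace ℝ (Fin d) → ℂ,
          0 < N ∧
          (∀ n, ContDiff ℝ 1 (u n) ∧ HasCompactSupport (u n)) ∧
          (∀ n m, ∫ x, star (u n x) * u m x = if n = m then (1 : ℂ) else 0) ∧
          K = (∑ n, ∫ x, ∑ i : Fin d, ‖fderiv ℝ (u n) x (EuclideanSpace.single i (1 : ℝ))‖ ^ 2)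
              / ∫ x, (∑ n, ‖u n x‖ ^ 2) ^ (1 + 2 / (d : ℝ))} := by
  have hd1 : 1 ≤ d := by
    have : (0 : ℕ) < 10 ^ 36 := by norm_num
    omega
  have hdR : ((1000 : ℝ) ^ (12 : ℕ)) < (d : ℝ) := by
    have h : ((10 ^ 36 : ℕ) : ℝ) < (d : ℝ) := by exact_mod_cast hd
    have e : ((10 ^ 36 : ℕ) : ℝ) = (1000 : ℝ) ^ (12 : ℕ) := by norm_num
    rw [e] at h
    exact h
  have h1 : (1000 : ℝ) < (d : ℝ) ^ (1 / 12 : ℝ) := by
    have h2 : ((1000 : ℝ) ^ (12 : ℕ)) ^ (1 / 12 : ℝ) < (d : ℝ) ^ (1 / 12 : ℝ) :=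
      Real.rpow_lt_rpow (by positivity) hdR (by norm_num)
    have h3 : ((1000 : ℝ) ^ (12 : ℕ)) ^ (1 / 12 : ℝ) = 1000 := by
      rw [← Real.rpow_natCast, ← Real.rpow_mul (by norm_num)]
      norm_num
    rw [h3] at h2
    exact h2
  rw [vol_ball d hd1]
  exact le_csInf (setK_nonempty d) fun K hK => Pool.Agent.LTHX.setK_ge_rate h1 K hK

end Pool.Agent.Results.MP_cfe56d_mp.HighDimRate
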