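import Mathlib
import Pool.Agent.LiebT.Sets

set_option autoImplicit false

namespace Pool.Agent.Results.MP_cfe56d_mp.OneDimSharp

open Pool.Agent.LiebT in
/-- The Lieb-Thirring conjecture for the kinetic energy inequality holds in dimension one:
`K_1 = min (K_1^(1)) (K_1^cl)`, and the common value is `π^2/4`. The displayed equation is the
statement of the problem with `d = 1`. -/
theorem result (d : ℕ) (hd : d = 1) :
    (sInf {K : ℝ | ∃ N : ℕ, ∃ u : Fin N → EuclideanSpace ℝ (Fin d) → ℂ,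
          0 < N ∧
          (∀ n, ContDiff ℝ 1 (u n) ∧ HasCompactSupport (u n)) ∧
          (∀ n m, ∫ x, star (u n x) * u m x = if n = m then (1 : ℂ) else 0) ∧
          K = (∑ n, ∫ x, ∑ i : Fin d, ‖fderiv ℝ (u n) x (EuclideanSpace.single i (1 : ℝ))‖ ^ 2)
              / ∫ x, (∑ n, ‖u n x‖ ^ 2) ^ (1 + 2 / (d : ℝ))}
      = min
          (sInf {K : ℝ | ∃ u : EuclideanSpace ℝ (Fin d) → ℂ,
              ContDiff ℝ 1 u ∧ HasCompactSupport u ∧ u ≠ 0 ∧
              K = (∫ x, ∑ i : Fin d, ‖fderiv ℝ u x (EuclideanSpace.single i (1 : ℝ))‖ ^ 2)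
                  * (∫ x, ‖u x‖ ^ 2) ^ (2 / (d : ℝ))
                  / ∫ x, ‖u x‖ ^ (2 + 4 / (d : ℝ))})
          ((d : ℝ) / ((d : ℝ) + 2) * (2 * Real.pi) ^ 2
            / ((MeasureTheory.volume (Metric.ball (0 : EuclideanSpace ℝ (Fin d)) 1)).toReal)
                ^ (2 / (d : ℝ))))
    ∧ sInf {K : ℝ | ∃ N : ℕ, ∃ u : Fin N → EuclideanSpace ℝ (Fin d) → ℂ,
          0 < N ∧
          (∀ n, ContDiff ℝ 1 (u n) ∧ HasCompactSupport (u n)) ∧
          (∀ n m, ∫ x, star (u n x) * u m x = if n = m then (1 : ℂ) else 0) ∧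
          K = (∑ n, ∫ x, ∑ i : Fin d, ‖fderiv ℝ (u n) x (EuclideanSpace.single i (1 : ℝ))‖ ^ 2)
              / ∫ x, (∑ n, ‖u n x‖ ^ 2) ^ (1 + 2 / (d : ℝ))}
        = Real.pi ^ 2 / 4 := by
  subst hd
  have hA : sInf setA = Real.pi ^ 2 / 4 := sInf_of_subset setB_subset (subset_refl _)
  have hB : sInf setB = Real.pi ^ 2 / 4 := sInf_of_subset (subset_refl _) setB_subset
  constructor
  · change sInf setA = min (sInf setB) _
    rw [hA, hB, classical_one, min_eq_left]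
    nlinarith [sq_nonneg Real.pi]
  · exact hA

end Pool.Agent.Results.MP_cfe56d_mp.OneDimSharp
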